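import Pool.Agent.Q143.EQ.Units

/-!
# An odd number of distinct elements of absolute value one with sum zero

For `m ≡ 3 (mod 4)` an odd number of different elements of absolute value one of `ℚ(√(-m))` have
sum zero; hence the same holds for every large number of elements.
-/

namespace Q143.EQ

open Finset

/-- `k` distinct elements of absolute value one of `ℚ(√(-m))` have sum zero. -/
def HasZeroSum (m k : ℕ) : Prop :=
  ∃ U : Finset ℂ, U.card = k ∧ (∀ v ∈ U, G m v) ∧ ∑ v ∈ U, v = 0

theorem replace {m : ℕ} (hm : 0 < m) (hno : ∀ k, Odd k → ¬ HasZeroSum m k) (F : Finset ℂ)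
    (l : List ℂ) (hl : ∀ z ∈ l, G m z) :
    ∃ U : Finset ℂ, (∀ v ∈ U, G m v) ∧ (∀ v ∈ U, v ∉ F ∧ -v ∉ F) ∧ (∀ v ∈ U, -v ∉ U) ∧
      ∑ v ∈ U, v = l.sum ∧ Even (U.card + l.length) := by
  classical
  induction l with
  | nil => exact ⟨∅, by simp, by simp, by simp, by simp, by simp⟩
  | cons z l ih =>
    obtain ⟨U, hG, hF, hop, hs, hc⟩ := ih fun y hy => hl y (List.mem_cons_of_mem _ hy)
    have hz : G m z := hl z List.mem_cons_self
    have hz0 := hz.ne_zero
    obtain ⟨A, hAG, hAF, hAF', hAop, hA1, hA1', hAs⟩ :=
      rep_one hm ((F ∪ U).image fun y => y / z)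
    have hodd : Odd A.card := by
      by_contra h
      rw [Nat.not_odd_iff_even] at h
      refine hno (A.card + 1) h.add_one ⟨insert (-1) A, ?_, ?_, ?_⟩
      · rw [Finset.card_insert_of_notMem hA1']
      · intro v hv
        rcases Finset.mem_insert.1 hv with rfl | hv
        · exact (G.one m).neg
        · exact hAG v hv
      · rw [Finset.sum_insert hA1', hAs]
        ring
    have hnot : ∀ v ∈ A, v * z ∉ F ∪ U := by
      intro v hv h
      refine hAF v hv (Finset.mem_image.2 ⟨v * z, h, ?_⟩)
      field_simp
    have hnot' : ∀ v ∈ A, -(v * z) ∉ F ∪ U := by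
      intro v hv h
      refine hAF' v hv (Finset.mem_image.2 ⟨-(v * z), h, ?_⟩)
      field_simp
    have hdisj : Disjoint U (A.image fun v => v * z) := by
      rw [Finset.disjoint_left]
      intro y hy hy'
      obtain ⟨v, hv, rfl⟩ := Finset.mem_image.1 hy'
      exact hnot v hv (Finset.mem_union_right _ hy)
    have hinj : Function.Injective fun v : ℂ => v * z := mul_left_injective₀ hz0
    refine ⟨U ∪ A.image fun v => v * z, ?_, ?_, ?_, ?_, ?_⟩
    · intro v hv
      rcases Finset.mem_union.1 hv with h | h
      · exact hG v h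
      · obtain ⟨y, hy, rfl⟩ := Finset.mem_image.1 h
        exact (hAG y hy).mul hz
    · intro v hv
      rcases Finset.mem_union.1 hv with h | h
      · exact hF v h
      · obtain ⟨y, hy, rfl⟩ := Finset.mem_image.1 h
        exact ⟨fun h' => hnot y hy (Finset.mem_union_left _ h'),
          fun h' => hnot' y hy (Finset.mem_union_left _ h')⟩
    · intro v hv hv'
      rcases Finset.mem_union.1 hv with h | h <;> rcases Finset.mem_union.1 hv' with h' | h'
      · exact hop v h h'
      · obtain ⟨y, hy, hyv⟩ := Finset.mem_image.1 h'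
        have e : v = -(y * z) := by rw [hyv, neg_neg]
        exact hnot' y hy (Finset.mem_union_right _ (e ▸ h))
      · obtain ⟨y, hy, rfl⟩ := Finset.mem_image.1 h
        exact hnot' y hy (Finset.mem_union_right _ h')
      · obtain ⟨y, hy, rfl⟩ := Finset.mem_image.1 h
        obtain ⟨x, hx, hxy⟩ := Finset.mem_image.1 h'
        have e : x = -y := by
          apply hinj
          change x * z = -y * z
          rw [hxy]
          ring
        exact hAop y hy (e ▸ hx)
    · rw [Finset.sum_union hdisj, Finset.sum_image (fun x _ y _ h => hinj h), ← Finset.sum_mul, hAs,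
        hs, List.sum_cons]
      ring
    · rw [Finset.card_union_of_disjoint hdisj, Finset.card_image_of_injective _ hinj,
        List.length_cons]
      have : U.card + A.card + (l.length + 1) = (U.card + l.length) + (A.card + 1) := by ring
      rw [this]
      exact hc.add hodd.add_one

theorem exists_odd {m : ℕ} (hm : m % 4 = 3) : ∃ k, Odd k ∧ HasZeroSum m k := by
  by_contra hcon
  have hno : ∀ k, Odd k → ¬ HasZeroSum m k := fun k hk h => hcon ⟨k, hk, h⟩
  have hm0 : 0 < m := by omega
  obtain ⟨t, ht⟩ : ∃ t, m + 1 = 4 * t := ⟨(m + 1) / 4, by omega⟩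
  have ht0 : 0 < t := by omega
  let u := w m 1
  let l : List ℂ := List.replicate t u ++ List.replicate t u⁻¹ ++ List.replicate (2 * t - 1) 1
  have hu : G m u := w_mem hm0 1
  have hl : ∀ z ∈ l, G m z := by
    intro z hz
    rcases List.mem_append.1 hz with h | h
    · rcases List.mem_append.1 h with h | h
      · rw [List.eq_of_mem_replicate h]
        exact hu
      · rw [List.eq_of_mem_replicate h]
        exact hu.inv
    · rw [List.eq_of_mem_replicate h]
      exact G.one m
  obtain ⟨U, hG, -, -, hs, hc⟩ := replace hm0 hno ∅ l hl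
  have hlen : l.length = m := by
    simp only [l, List.length_append, List.length_replicate]
    omega
  have hsum : l.sum = 0 := by
    simp only [l, List.sum_append, List.sum_replicate, nsmul_eq_mul, mul_one]
    have hp : (1 : ℂ) - s m ≠ 0 := by
      have := sub_ne hm0 1
      simpa using this
    have hq : (1 : ℂ) + s m ≠ 0 := by
      intro h
      have h2 := sub_mul_add m 1
      rw [Nat.cast_one, h, mul_zero] at h2
      have : (1 ^ 2 + m : ℕ) ≠ 0 := by omega
      exact this (by exact_mod_cast h2.symm)
    have hu' : u + u⁻¹ = (2 - 2 * m) / (1 + m) := by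
      have h1m : (1 : ℂ) + m ≠ 0 := by
        have : ((1 + m : ℕ) : ℂ) ≠ 0 := by
          rw [Nat.cast_ne_zero]
          omega
        push_cast at this
        exact this
      change w m 1 + (w m 1)⁻¹ = _
      unfold w
      rw [Nat.cast_one, inv_div, div_add_div _ _ hp hq, div_eq_div_iff (mul_ne_zero hp hq) h1m]
      have := s_sq m
      linear_combination (4 : ℂ) * this
    have h2t : ((2 * t - 1 : ℕ) : ℂ) = 2 * t - 1 := by
      rw [Nat.cast_sub (by omega)]
      push_cast
      ring
    have hmt : (m : ℂ) = 4 * t - 1 := by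
      have : ((m + 1 : ℕ) : ℂ) = ((4 * t : ℕ) : ℂ) := by rw [ht]
      push_cast at this
      linear_combination this
    have ht' : (t : ℂ) ≠ 0 := by exact_mod_cast ht0.ne'
    calc (t : ℂ) * u + t * u⁻¹ + ((2 * t - 1 : ℕ) : ℂ) = t * (u + u⁻¹) + (2 * t - 1) := by
          rw [h2t]
          ring
      _ = 0 := by
          rw [hu', hmt]
          have : (1 : ℂ) + (4 * t - 1) ≠ 0 := by
            have h4 : (4 : ℂ) * t ≠ 0 := mul_ne_zero (by norm_num) ht'
            intro h
            apply h4
            linear_combination h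
          field_simp
          ring
  rw [hlen] at hc
  refine hno U.card ?_ ⟨U, rfl, hG, hs.trans hsum⟩
  have hmodd : Odd m := Nat.odd_iff.2 (by omega)
  by_contra h
  rw [Nat.not_odd_iff_even] at h
  exact (Nat.not_even_iff_odd.2 (h.add_odd hmodd)) hc

theorem HasZeroSum.add_two {m k : ℕ} (hm : 0 < m) (h : HasZeroSum m k) : HasZeroSum m (k + 2) := by
  classical
  obtain ⟨U, hc, hG, hs⟩ := h
  have hlt : (U ∪ U.image fun z => -z).card <
      ((Finset.range (2 * k + 1)).image (w m)).card := by
    rw [Finset.card_image_of_injective _ (fun x y h => w_inj hm h), Finset.card_range]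
    have h1 := Finset.card_union_le U (U.image fun z => -z)
    have h2 : (U.image fun z => -z).card ≤ U.card := Finset.card_image_le
    omega
  obtain ⟨u, hu, huU⟩ := Finset.exists_mem_notMem_of_card_lt_card hlt
  obtain ⟨x, -, rfl⟩ := Finset.mem_image.1 hu
  have hG' := w_mem hm x
  have h1 : w m x ∉ U := fun h => huU (Finset.mem_union_left _ h)
  have h2 : -w m x ∉ U := fun h => huU (Finset.mem_union_right _
    (Finset.mem_image.2 ⟨-w m x, h, neg_neg _⟩))
  have h3 : w m x ∉ insert (-w m x) U := by
    rw [Finset.mem_insert]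
    rintro (h | h)
    · exact hG'.ne_zero (self_eq_neg.1 h)
    · exact h1 h
  refine ⟨insert (w m x) (insert (-w m x) U), ?_, ?_, ?_⟩
  · rw [Finset.card_insert_of_notMem h3, Finset.card_insert_of_notMem h2, hc]
  · intro v hv
    rcases Finset.mem_insert.1 hv with rfl | hv
    · exact hG'
    · rcases Finset.mem_insert.1 hv with rfl | hv
      · exact hG'.neg
      · exact hG v hv
  · rw [Finset.sum_insert h3, Finset.sum_insert h2, hs]
    ring

theorem HasZeroSum.add_even {m k : ℕ} (hm : 0 < m) (h : HasZeroSum m k) (j : ℕ) :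
    HasZeroSum m (k + 2 * j) := by
  induction j with
  | zero => exact h
  | succ j ih => exact ih.add_two hm

theorem exists_all {m : ℕ} (hm : m % 4 = 3) : ∃ N, 3 ≤ N ∧ ∀ n ≥ N, HasZeroSum m n := by
  have hm0 : 0 < m := by omega
  obtain ⟨k, hk, hks⟩ := exists_odd hm
  refine ⟨k + 3, by omega, fun n hn => ?_⟩
  rcases Nat.even_or_odd n with h | h
  · obtain ⟨r, hr⟩ := h
    have h0 : HasZeroSum m 0 := ⟨∅, by simp, by simp, by simp⟩
    have := h0.add_even hm0 r
    rwa [zero_add, two_mul, ← hr] at this
  · obtain ⟨a, ha⟩ := hk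
    obtain ⟨b, hb⟩ := h
    have := hks.add_even hm0 (b - a)
    have e : k + 2 * (b - a) = n := by omega
    rwa [e] at this

end Q143.EQ
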