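import Mathlib

/-!
# Distinct vectors of length one with sum zero, sorted by angle, are the sides of a convex polygon
-/

namespace Q143.EQ

open Finset

/-- `Re z · Im w - Im z · Re w`: positive when `w` points to the left of `z`. -/
def cross (z w : ℂ) : ℝ := z.re * w.im - z.im * w.re

theorem cross_add (z w w' : ℂ) : cross z (w + w') = cross z w + cross z w' := by
  simp only [cross, Complex.add_re, Complex.add_im]
  ring

theorem cross_neg (z w : ℂ) : cross z (-w) = -cross z w := by
  simp only [cross, Complex.neg_re, Complex.neg_im]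
  ring

theorem cross_sum (z : ℂ) {ι : Type*} (S : Finset ι) (f : ι → ℂ) :
    cross z (∑ i ∈ S, f i) = ∑ i ∈ S, cross z (f i) := by
  classical
  induction S using Finset.induction_on with
  | empty => simp [cross]
  | insert a S ha ih => rw [Finset.sum_insert ha, Finset.sum_insert ha, cross_add, ih]

theorem cross_exp (a b : ℝ) :
    cross (Complex.exp (a * Complex.I)) (Complex.exp (b * Complex.I)) = Real.sin (b - a) := by
  simp only [cross, Complex.exp_ofReal_mul_I_re, Complex.exp_ofReal_mul_I_im, Real.sin_sub]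
  ring

section real

variable {n : ℕ} {θ : ℕ → ℝ} (hn : 3 ≤ n) (hmono : ∀ a b, a < b → b < n → θ a < θ b)
  (hspan : ∀ a b, a < n → b < n → θ b - θ a < 2 * Real.pi)
include hn hmono hspan

omit hn hmono hspan in
theorem sin_neg_of_mem {x : ℝ} (h1 : Real.pi < x) (h2 : x < 2 * Real.pi) : Real.sin x < 0 := by
  have := Real.sin_neg_of_neg_of_neg_pi_lt (x := x - 2 * Real.pi) (by linarith) (by linarith)
  rwa [Real.sin_sub_two_pi] at this

omit hn hmono hspan in
theorem sin_pos_of_mem {x : ℝ} (h1 : -(2 * Real.pi) < x) (h2 : x < -Real.pi) : 0 < Real.sin x := by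
  have := Real.sin_pos_of_pos_of_lt_pi (x := x + 2 * Real.pi) (by linarith) (by linarith)
  rwa [Real.sin_add_two_pi] at this

omit hn hmono hspan in
theorem split_sum (f : ℕ → ℝ) {i j : ℕ} (hij : i ≤ j) (hj : j ≤ n) :
    ∑ k ∈ range n, f k = ∑ k ∈ Ico 0 i, f k + ∑ k ∈ Ico i j, f k + ∑ k ∈ Ico j n, f k := by
  rw [Finset.sum_Ico_consecutive _ (Nat.zero_le i) hij,
    Finset.sum_Ico_consecutive _ (Nat.zero_le j) hj, Finset.range_eq_Ico]

theorem caseA {i j : ℕ} (hij : i + 1 < j) (hj : j < n)
    (hsum : ∑ k ∈ range n, Real.sin (θ k - θ i) = 0) :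
    0 < ∑ k ∈ Ico i j, Real.sin (θ k - θ i) := by
  have hpi := Real.pi_pos
  by_cases h : ∀ k, i < k → k < j → θ k - θ i ≤ Real.pi
  · have hnn : ∀ k ∈ Ico i j, 0 ≤ Real.sin (θ k - θ i) := by
      intro k hk
      rw [Finset.mem_Ico] at hk
      rcases Nat.eq_or_lt_of_le hk.1 with h' | h'
      · rw [h', sub_self, Real.sin_zero]
      · exact Real.sin_nonneg_of_nonneg_of_le_pi (by linarith [hmono i k h' (by omega)])
          (h k h' hk.2)
    refine Finset.sum_pos' hnn ⟨i + 1, Finset.mem_Ico.2 ⟨by omega, hij⟩, ?_⟩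
    have h1 := h (i + 1) (by omega) hij
    have h0 : 0 < θ (i + 1) - θ i := by linarith [hmono i (i + 1) (by omega) (by omega)]
    rcases h1.lt_or_eq with h1 | h1
    · exact Real.sin_pos_of_pos_of_lt_pi h0 h1
    · exfalso
      have hneg : ∀ k ∈ range n, Real.sin (θ k - θ i) ≤ 0 := by
        intro k hk
        rw [Finset.mem_range] at hk
        rcases lt_trichotomy k i with h' | h' | h'
        · have h2 := hmono k i h' (by omega)
          have h3 := hspan k (i + 1) hk (by omega)
          exact (Real.sin_neg_of_neg_of_neg_pi_lt (by linarith) (by linarith)).le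
        · rw [h', sub_self, Real.sin_zero]
        · rcases Nat.eq_or_lt_of_le (Nat.succ_le_of_lt h') with h'' | h''
          · rw [← h'', Nat.succ_eq_add_one, h1, Real.sin_pi]
          · have h2 := hmono (i + 1) k h'' hk
            have h3 := hspan i k (by omega) hk
            exact (sin_neg_of_mem (by linarith) (by linarith)).le
      have hlt : ∑ k ∈ range n, Real.sin (θ k - θ i) < 0 := by
        obtain ⟨k, hk, hki, hki'⟩ : ∃ k < n, k ≠ i ∧ k ≠ i + 1 := by
          rcases Nat.eq_zero_or_pos i with h' | h'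
          · exact ⟨2, by omega, by omega, by omega⟩
          · exact ⟨0, by omega, by omega, by omega⟩
        refine Finset.sum_neg' hneg ⟨k, Finset.mem_range.2 hk, ?_⟩
        rcases lt_or_gt_of_ne hki with h' | h'
        · have h2 := hmono k i h' (by omega)
          have h3 := hspan k (i + 1) hk (by omega)
          exact Real.sin_neg_of_neg_of_neg_pi_lt (by linarith) (by linarith)
        · have h2 := hmono (i + 1) k (by omega) hk
          have h3 := hspan i k (by omega) hk
          exact sin_neg_of_mem (by linarith) (by linarith)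
      linarith
  · push Not at h
    obtain ⟨k₀, hik, hkj, hk₀⟩ := h
    have hA : ∑ k ∈ Ico 0 i, Real.sin (θ k - θ i) ≤ 0 := by
      refine Finset.sum_nonpos fun k hk => ?_
      rw [Finset.mem_Ico] at hk
      have h2 := hmono k i hk.2 (by omega)
      have h3 := hspan k k₀ (by omega) (by omega)
      exact (Real.sin_neg_of_neg_of_neg_pi_lt (by linarith) (by linarith)).le
    have hB : ∑ k ∈ Ico j n, Real.sin (θ k - θ i) < 0 := by
      refine Finset.sum_neg (fun k hk => ?_) ⟨j, Finset.mem_Ico.2 ⟨le_rfl, hj⟩⟩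
      rw [Finset.mem_Ico] at hk
      have h2 := hmono k₀ k (by omega) hk.2
      have h3 := hspan i k (by omega) hk.2
      exact sin_neg_of_mem (by linarith) (by linarith)
    have := split_sum (fun k => Real.sin (θ k - θ i)) (show i ≤ j by omega) hj.le
    linarith

theorem caseB {i j : ℕ} (hji : j < i) (hi : i < n) (hne : ¬ (j = 0 ∧ i + 1 = n))
    (hsum : ∑ k ∈ range n, Real.sin (θ k - θ i) = 0) :
    ∑ k ∈ Ico j i, Real.sin (θ k - θ i) < 0 := by
  have hpi := Real.pi_pos
  by_cases h : ∀ k, j ≤ k → k < i → θ i - θ k ≤ Real.pi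
  · have hnn : ∀ k ∈ Ico j i, Real.sin (θ k - θ i) ≤ 0 := by
      intro k hk
      rw [Finset.mem_Ico] at hk
      exact Real.sin_nonpos_of_nonpos_of_neg_pi_le (by linarith [hmono k i hk.2 hi])
          (by linarith [h k hk.1 hk.2])
    refine Finset.sum_neg' hnn ⟨i - 1, Finset.mem_Ico.2 ⟨by omega, by omega⟩, ?_⟩
    have h1 := h (i - 1) (by omega) (by omega)
    have h0 : 0 < θ i - θ (i - 1) := by linarith [hmono (i - 1) i (by omega) (by omega)]
    rcases h1.lt_or_eq with h1 | h1
    · exact Real.sin_neg_of_neg_of_neg_pi_lt (by linarith) (by linarith)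
    · exfalso
      have hpos : ∀ k ∈ range n, k ≠ i → k ≠ i - 1 → 0 < Real.sin (θ k - θ i) := by
        intro k hk hki hki'
        rw [Finset.mem_range] at hk
        rcases lt_or_gt_of_ne hki with h' | h'
        · have h2 := hmono k (i - 1) (by omega) (by omega)
          have h3 := hspan k i hk (by omega)
          exact sin_pos_of_mem (by linarith) (by linarith)
        · have h2 := hmono i k h' hk
          have h3 := hspan (i - 1) k (by omega) hk
          exact Real.sin_pos_of_pos_of_lt_pi (by linarith) (by linarith)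
      have hnn' : ∀ k ∈ range n, 0 ≤ Real.sin (θ k - θ i) := by
        intro k hk
        by_cases hki : k = i
        · rw [hki, sub_self, Real.sin_zero]
        · by_cases hki' : k = i - 1
          · have e : θ k - θ i = -Real.pi := by rw [hki']; linarith
            rw [e, Real.sin_neg, Real.sin_pi, neg_zero]
          · exact (hpos k hk hki hki').le
      have hlt : 0 < ∑ k ∈ range n, Real.sin (θ k - θ i) := by
        obtain ⟨k, hk, hki, hki'⟩ : ∃ k < n, k ≠ i ∧ k ≠ i - 1 := by
          by_cases h2 : i = 1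
          · exact ⟨2, by omega, by omega, by omega⟩
          · exact ⟨0, by omega, by omega, by omega⟩
        exact Finset.sum_pos' hnn' ⟨k, Finset.mem_range.2 hk,
          hpos k (Finset.mem_range.2 hk) hki hki'⟩
      linarith
  · push Not at h
    obtain ⟨k₀, hik, hkj, hk₀⟩ := h
    have hA : ∀ k ∈ Ico 0 j, 0 < Real.sin (θ k - θ i) := by
      intro k hk
      rw [Finset.mem_Ico] at hk
      have h2 := hmono k k₀ (by omega) (by omega)
      have h3 := hspan k i (by omega) (by omega)
      exact sin_pos_of_mem (by linarith) (by linarith)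
    have hB : ∀ k ∈ Ico (i + 1) n, 0 < Real.sin (θ k - θ i) := by
      intro k hk
      rw [Finset.mem_Ico] at hk
      have h2 := hmono i k (by omega) hk.2
      have h3 := hspan k₀ k (by omega) hk.2
      exact Real.sin_pos_of_pos_of_lt_pi (by linarith) (by linarith)
    have hs := split_sum (fun k => Real.sin (θ k - θ i)) hji.le hi.le
    have hi' : ∑ k ∈ Ico i n, Real.sin (θ k - θ i) = ∑ k ∈ Ico (i + 1) n, Real.sin (θ k - θ i) := by
      rw [Finset.sum_eq_sum_Ico_succ_bot hi, sub_self, Real.sin_zero, zero_add]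
    rcases Nat.eq_zero_or_pos j with h0 | h0
    · have hB' : 0 < ∑ k ∈ Ico (i + 1) n, Real.sin (θ k - θ i) :=
        Finset.sum_pos hB ⟨i + 1, Finset.mem_Ico.2 ⟨le_rfl, by omega⟩⟩
      have hA' : 0 ≤ ∑ k ∈ Ico 0 j, Real.sin (θ k - θ i) :=
        Finset.sum_nonneg fun k hk => (hA k hk).le
      linarith
    · have hA' : 0 < ∑ k ∈ Ico 0 j, Real.sin (θ k - θ i) :=
        Finset.sum_pos hA ⟨0, Finset.mem_Ico.2 ⟨le_rfl, h0⟩⟩
      have hB' : 0 ≤ ∑ k ∈ Ico (i + 1) n, Real.sin (θ k - θ i) :=
        Finset.sum_nonneg fun k hk => (hB k hk).le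
      linarith

end real

/-- The vectors of `U` in counterclockwise order. -/
theorem exists_sorted (U : Finset ℂ) (hnorm : ∀ v ∈ U, ‖v‖ = 1) :
    ∃ θ : ℕ → ℝ, (∀ a b, a < b → b < U.card → θ a < θ b) ∧
      (∀ a b, a < U.card → b < U.card → θ b - θ a < 2 * Real.pi) ∧
      (∀ a < U.card, Complex.exp (θ a * Complex.I) ∈ U) ∧
      ∑ k ∈ range U.card, Complex.exp (θ k * Complex.I) = ∑ v ∈ U, v := by
  classical
  have hexp : ∀ v ∈ U, Complex.exp (Complex.arg v * Complex.I) = v := by
    intro v hv
    have := Complex.norm_mul_exp_arg_mul_I v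
    rwa [hnorm v hv, Complex.ofReal_one, one_mul] at this
  have hinj : Set.InjOn Complex.arg (U : Set ℂ) := by
    intro x hx y hy h
    rw [← hexp x hx, ← hexp y hy, h]
  have hcard : (U.image Complex.arg).card = U.card := Finset.card_image_of_injOn hinj
  let f := (U.image Complex.arg).orderEmbOfFin hcard
  let θ : ℕ → ℝ := fun k => if h : k < U.card then f ⟨k, h⟩ else 0
  have hθ : ∀ k (h : k < U.card), θ k = f ⟨k, h⟩ := fun k h => dif_pos h
  have hmem : ∀ k (h : k < U.card), ∃ v ∈ U, Complex.arg v = θ k := by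
    intro k h
    rw [hθ k h]
    exact Finset.mem_image.1 (Finset.orderEmbOfFin_mem _ _ _)
  refine ⟨θ, ?_, ?_, ?_, ?_⟩
  · intro a b hab hb
    rw [hθ a (hab.trans hb), hθ b hb]
    exact f.strictMono hab
  · intro a b ha hb
    obtain ⟨v, -, hv⟩ := hmem a ha
    obtain ⟨u, -, hu⟩ := hmem b hb
    rw [← hv, ← hu]
    have h1 := Complex.neg_pi_lt_arg v
    have h2 := Complex.arg_le_pi u
    linarith
  · intro a ha
    obtain ⟨v, hv, hva⟩ := hmem a ha
    rw [← hva, hexp v hv]
    exact hv
  · rw [← Fin.sum_univ_eq_sum_range (fun k => Complex.exp (θ k * Complex.I))]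
    refine Finset.sum_bij (fun (k : Fin U.card) _ => Complex.exp (θ k * Complex.I)) ?_ ?_ ?_ ?_
    · intro k _
      obtain ⟨v, hv, hva⟩ := hmem k k.2
      rw [← hva, hexp v hv]
      exact hv
    · intro a _ b _ h
      obtain ⟨v, hv, hva⟩ := hmem a a.2
      obtain ⟨u, hu, hub⟩ := hmem b b.2
      change Complex.exp (θ a * Complex.I) = Complex.exp (θ b * Complex.I) at h
      rw [← hva, ← hub, hexp v hv, hexp u hu] at h
      rw [← h, hva] at hub
      rw [hθ a a.2, hθ b b.2] at hub
      exact f.injective hub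
    · intro v hv
      have : Complex.arg v ∈ Set.range f := by
        rw [Finset.range_orderEmbOfFin]
        exact Finset.mem_coe.2 (Finset.mem_image_of_mem _ hv)
      obtain ⟨k, hk⟩ := this
      refine ⟨k, Finset.mem_univ _, ?_⟩
      rw [hθ k k.2]
      change Complex.exp (f k * Complex.I) = v
      rw [hk, hexp v hv]
    · intro k _
      rfl

end Q143.EQ
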