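import Mathlib

/-!
# Elements of absolute value one in an imaginary quadratic field

`s m = i √m`. The numbers (predicate `G m`) `a + b √(-m)`, `a b` rational, of absolute value one form a
group. `rep_one`: outside of any given finite set, one is a sum of distinct elements of `G`, no two
of them opposite (pigeonhole argument).
-/

namespace Q143.EQ

open Finset

/-- `√(-m)` -/
noncomputable def s (m : ℕ) : ℂ := (Real.sqrt m : ℝ) * Complex.I

theorem s_sq (m : ℕ) : s m * s m = -(m : ℂ) := by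
  have h : ((Real.sqrt m : ℝ) : ℂ) * ((Real.sqrt m : ℝ) : ℂ) = (m : ℂ) := by
    rw [← Complex.ofReal_mul, Real.mul_self_sqrt (by positivity)]
    simp
  calc s m * s m = ((Real.sqrt m : ℝ) : ℂ) * ((Real.sqrt m : ℝ) : ℂ) * (Complex.I * Complex.I) := by
        unfold s; ring
    _ = -(m : ℂ) := by rw [h, Complex.I_mul_I]; ring

/-- The number lies in `ℤ + ℤ √(-m)`. -/
def IsInt (m : ℕ) (z : ℂ) : Prop := ∃ a b : ℤ, z = a + b * s m

theorem IsInt.add {m : ℕ} {z w : ℂ} (hz : IsInt m z) (hw : IsInt m w) : IsInt m (z + w) := by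
  obtain ⟨a, b, rfl⟩ := hz
  obtain ⟨c, d, rfl⟩ := hw
  exact ⟨a + c, b + d, by push_cast; ring⟩

theorem IsInt.neg {m : ℕ} {z : ℂ} (hz : IsInt m z) : IsInt m (-z) := by
  obtain ⟨a, b, rfl⟩ := hz
  exact ⟨-a, -b, by push_cast; ring⟩

theorem IsInt.mul {m : ℕ} {z w : ℂ} (hz : IsInt m z) (hw : IsInt m w) : IsInt m (z * w) := by
  obtain ⟨a, b, rfl⟩ := hz
  obtain ⟨c, d, rfl⟩ := hw
  refine ⟨a * c - m * (b * d), a * d + b * c, ?_⟩
  have : (a + b * s m) * (c + d * s m) =
      a * c + (b * d) * (s m * s m) + (a * d + b * c) * s m := by ring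
  rw [this, s_sq]
  push_cast
  ring

theorem IsInt.natCast (m k : ℕ) : IsInt m k := ⟨k, 0, by push_cast; ring⟩

theorem IsInt.one (m : ℕ) : IsInt m 1 := ⟨1, 0, by push_cast; ring⟩

theorem IsInt.zero (m : ℕ) : IsInt m 0 := ⟨0, 0, by push_cast; ring⟩

theorem IsInt.sum {m : ℕ} {ι : Type*} (S : Finset ι) (f : ι → ℂ) (h : ∀ i ∈ S, IsInt m (f i)) :
    IsInt m (∑ i ∈ S, f i) := by
  classical
  induction S using Finset.induction_on with
  | empty => simpa using IsInt.zero m
  | insert a S ha ih =>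
    rw [Finset.sum_insert ha]
    exact (h a (by simp)).add (ih fun i hi => h i (by simp [hi]))

/-- Elements of absolute value one in the field `ℚ(√(-m))`: some positive integer multiple lies in
`ℤ + ℤ √(-m)`. -/
def G (m : ℕ) (z : ℂ) : Prop := ‖z‖ = 1 ∧ ∃ D : ℕ, 0 < D ∧ IsInt m (D * z)

theorem G.ne_zero {m : ℕ} {z : ℂ} (h : G m z) : z ≠ 0 := by
  rintro rfl
  have := h.1
  simp at this

theorem G.one (m : ℕ) : G m (1 : ℂ) := ⟨by simp, 1, one_pos, by simpa using IsInt.one m⟩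

theorem G.neg {m : ℕ} {z : ℂ} (h : G m z) : G m (-z) := by
  obtain ⟨h1, D, hD, h2⟩ := h
  exact ⟨by simpa using h1, D, hD, by rw [mul_neg]; exact h2.neg⟩

theorem G.mul {m : ℕ} {z w : ℂ} (hz : G m z) (hw : G m w) : G m (z * w) := by
  obtain ⟨h1, D, hD, h2⟩ := hz
  obtain ⟨h1', D', hD', h2'⟩ := hw
  refine ⟨by rw [norm_mul, h1, h1', one_mul], D * D', Nat.mul_pos hD hD', ?_⟩
  have := h2.mul h2'
  convert this using 1
  push_cast
  ring

theorem conj_s (m : ℕ) : (starRingEnd ℂ) (s m) = - s m := by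
  unfold s
  rw [map_mul, Complex.conj_ofReal, Complex.conj_I]
  ring

theorem IsInt.conj {m : ℕ} {z : ℂ} (hz : IsInt m z) : IsInt m ((starRingEnd ℂ) z) := by
  obtain ⟨a, b, rfl⟩ := hz
  refine ⟨a, -b, ?_⟩
  rw [map_add, map_mul, conj_s]
  simp

theorem inv_eq_conj {z : ℂ} (h : ‖z‖ = 1) : z⁻¹ = (starRingEnd ℂ) z := by
  rw [Complex.inv_def, Complex.normSq_eq_norm_sq, h]
  simp

theorem G.inv {m : ℕ} {z : ℂ} (h : G m z) : G m (z⁻¹) := by
  obtain ⟨h1, D, hD, h2⟩ := h
  refine ⟨by rw [norm_inv, h1, inv_one], D, hD, ?_⟩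
  rw [inv_eq_conj h1]
  have := h2.conj
  rwa [map_mul, Complex.conj_natCast] at this

theorem G.div {m : ℕ} {z w : ℂ} (hz : G m z) (hw : G m w) : G m (z / w) := by
  rw [div_eq_mul_inv]
  exact hz.mul hw.inv

/-- The elements `(x + √(-m)) / (x - √(-m))`. -/
noncomputable def w (m x : ℕ) : ℂ := (x + s m) / (x - s m)

theorem s_im (m : ℕ) : (s m).im = Real.sqrt m := by simp [s]

theorem s_re (m : ℕ) : (s m).re = 0 := by simp [s]

theorem s_ne_zero {m : ℕ} (hm : 0 < m) : s m ≠ 0 := by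
  intro h
  have := congrArg Complex.im h
  rw [s_im, Complex.zero_im, Real.sqrt_eq_zero (by positivity)] at this
  norm_cast at this
  omega

theorem sub_ne {m : ℕ} (hm : 0 < m) (x : ℕ) : (x : ℂ) - s m ≠ 0 := by
  intro h
  have := congrArg Complex.im h
  rw [Complex.sub_im, s_im, Complex.natCast_im, Complex.zero_im, zero_sub, neg_eq_zero,
    Real.sqrt_eq_zero (by positivity)] at this
  norm_cast at this
  omega

theorem sub_mul_add (m x : ℕ) : ((x : ℂ) - s m) * (x + s m) = ((x ^ 2 + m : ℕ) : ℂ) := by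
  have : ((x : ℂ) - s m) * (x + s m) = x * x - s m * s m := by ring
  rw [this, s_sq]
  push_cast
  ring

theorem w_int {m : ℕ} (hm : 0 < m) (x : ℕ) : IsInt m ((x ^ 2 + m : ℕ) * w m x) := by
  have h : ((x ^ 2 + m : ℕ) : ℂ) * w m x = (x + s m) * (x + s m) := by
    rw [← sub_mul_add, w]
    field_simp [sub_ne hm x]
  rw [h]
  have : IsInt m (x + s m) := ⟨x, 1, by push_cast; ring⟩
  exact this.mul this

theorem w_norm {m : ℕ} (hm : 0 < m) (x : ℕ) : ‖w m x‖ = 1 := by
  have h : (starRingEnd ℂ) ((x : ℂ) - s m) = x + s m := by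
    rw [map_sub, conj_s, Complex.conj_natCast]
    ring
  rw [w, norm_div, ← h, Complex.norm_conj, div_self]
  rw [norm_ne_zero_iff]
  exact sub_ne hm x

theorem w_mem {m : ℕ} (hm : 0 < m) (x : ℕ) : G m (w m x) :=
  ⟨w_norm hm x, x ^ 2 + m, by positivity, w_int hm x⟩

theorem w_inj {m : ℕ} (hm : 0 < m) {x y : ℕ} (h : w m x = w m y) : x = y := by
  unfold w at h
  rw [div_eq_div_iff (sub_ne hm x) (sub_ne hm y)] at h
  have h2 : ((y : ℂ) - x) * s m = 0 := by linear_combination h / 2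
  rcases mul_eq_zero.1 h2 with h3 | h3
  · have : (y : ℂ) = x := by linear_combination h3
    exact_mod_cast this.symm
  · exact absurd h3 (s_ne_zero hm)

/-- A set of `2 ^ k` elements of `G m` with small denominators, whose quotients avoid `F`. -/
theorem exists_cube {m : ℕ} (hm : 0 < m) (F : Finset ℂ) (h1 : (1 : ℂ) ∈ F)
    (hinv : ∀ z ∈ F, z⁻¹ ∈ F) (K : ℕ) :
    ∀ k ≤ K, ∃ S : Finset ℂ, S.card = 2 ^ k ∧ (∀ a ∈ S, G m a) ∧
      (∀ a ∈ S, ∀ b ∈ S, a ≠ b → a / b ∉ F) ∧
      ∃ D : ℕ, 0 < D ∧ D ≤ ((F.card * 4 ^ K + 1) ^ 2 + m) ^ k ∧ ∀ a ∈ S, IsInt m (D * a) := by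
  intro k
  induction k with
  | zero =>
    intro _
    refine ⟨{1}, by simp, ?_, ?_, 1, one_pos, by simp, ?_⟩
    · intro a ha
      rw [Finset.mem_singleton] at ha
      rw [ha]
      exact G.one m
    · intro a ha b hb hab
      rw [Finset.mem_singleton] at ha hb
      exact absurd (ha.trans hb.symm) hab
    · intro a ha
      rw [Finset.mem_singleton] at ha
      rw [ha]
      simpa using IsInt.one m
  | succ k ih =>
    intro hk
    obtain ⟨S, hS, hG, hF, D, hD, hDle, hint⟩ := ih (by omega)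
    classical
    -- bad set
    let B : Finset ℂ := (F ×ˢ (S ×ˢ S)).image fun p => p.1 * (p.2.1 / p.2.2)
    have hB : B.card ≤ F.card * 4 ^ k := by
      refine Finset.card_image_le.trans ?_
      rw [Finset.card_product, Finset.card_product, hS]
      have : (4 : ℕ) ^ k = 2 ^ k * 2 ^ k := by rw [← mul_pow]; norm_num
      rw [this]
    have hlt : B.card < (((Finset.range (F.card * 4 ^ K + 1)).image (w m))).card := by
      rw [Finset.card_image_of_injective _ (fun x y h => w_inj hm h), Finset.card_range]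
      have : F.card * 4 ^ k ≤ F.card * 4 ^ K :=
        Nat.mul_le_mul_left _ (Nat.pow_le_pow_right (by norm_num) (by omega))
      omega
    obtain ⟨u, hu, huB⟩ := Finset.exists_mem_notMem_of_card_lt_card hlt
    obtain ⟨x, hx, rfl⟩ := Finset.mem_image.1 hu
    rw [Finset.mem_range] at hx
    have hbad : ∀ a ∈ S, ∀ b ∈ S, w m x * a / b ∉ F := by
      intro a ha b hb hab
      apply huB
      refine Finset.mem_image.2 ⟨(w m x * a / b, (b, a)), ?_, ?_⟩
      · simp [hab, ha, hb]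
      · have h1 := (hG a ha).ne_zero
        have h2 := (hG b hb).ne_zero
        change w m x * a / b * (b / a) = w m x
        field_simp
    have hdisj : Disjoint S (S.image fun a => w m x * a) := by
      rw [Finset.disjoint_left]
      intro b hb hb'
      obtain ⟨a, ha, rfl⟩ := Finset.mem_image.1 hb'
      have := hbad a ha _ hb
      rw [div_self (hG _ hb).ne_zero] at this
      exact this h1
    refine ⟨S ∪ S.image fun a => w m x * a, ?_, ?_, ?_, D * (x ^ 2 + m), by positivity, ?_, ?_⟩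
    · rw [Finset.card_union_of_disjoint hdisj, Finset.card_image_of_injective, hS]
      · ring
      · intro a b hab
        exact mul_left_cancel₀ (w_mem hm x).ne_zero hab
    · intro a ha
      rcases Finset.mem_union.1 ha with h | h
      · exact hG a h
      · obtain ⟨c, hc, rfl⟩ := Finset.mem_image.1 h
        exact (w_mem hm x).mul (hG c hc)
    · intro a ha b hb hab
      rcases Finset.mem_union.1 ha with h | h <;> rcases Finset.mem_union.1 hb with h' | h'
      · exact hF a h b h' hab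
      · obtain ⟨c, hc, rfl⟩ := Finset.mem_image.1 h'
        intro hmem
        have := hinv _ hmem
        rw [inv_div] at this
        exact hbad c hc a h this
      · obtain ⟨c, hc, rfl⟩ := Finset.mem_image.1 h
        exact hbad c hc b h'
      · obtain ⟨c, hc, rfl⟩ := Finset.mem_image.1 h
        obtain ⟨d, hd, rfl⟩ := Finset.mem_image.1 h'
        rw [mul_div_mul_left _ _ (w_mem hm x).ne_zero]
        refine hF c hc d hd ?_
        rintro rfl
        exact hab rfl
    · rw [pow_succ]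
      refine Nat.mul_le_mul hDle ?_
      exact Nat.add_le_add_right (Nat.pow_le_pow_left hx.le 2) m
    · intro a ha
      rcases Finset.mem_union.1 ha with h | h
      · have := (IsInt.natCast m (x ^ 2 + m)).mul (hint a h)
        convert this using 1
        push_cast
        ring
      · obtain ⟨c, hc, rfl⟩ := Finset.mem_image.1 h
        have := (w_int hm x).mul (hint c hc)
        convert this using 1
        push_cast
        ring

/-- The numerical inequality behind the pigeonhole argument. -/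
theorem exists_K (c m : ℕ) : ∃ K : ℕ,
    (2 * (((c * 4 ^ K + 1) ^ 2 + m) ^ K * 2 ^ K) + 1) ^ 2 < 2 ^ 2 ^ K := by
  obtain ⟨e, he⟩ : ∃ e : ℕ, (c + 1) ^ 2 + m ≤ 2 ^ e := ⟨_, Nat.lt_two_pow_self.le⟩
  obtain ⟨L, hL⟩ : ∃ L, L = e + 200 := ⟨_, rfl⟩
  obtain ⟨K, hK⟩ : ∃ K, K = 4 * L := ⟨_, rfl⟩
  refine ⟨K, ?_⟩
  have h1 : (c * 4 ^ K + 1) ^ 2 + m ≤ 2 ^ (e + 4 * K) := by
    have h16 : (2 : ℕ) ^ (4 * K) = (4 ^ K) ^ 2 := by
      rw [← pow_mul, show (4 : ℕ) = 2 ^ 2 by norm_num, ← pow_mul]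
      congr 1
      ring
    rw [pow_add, h16]
    have h4 : 1 ≤ 4 ^ K := Nat.one_le_pow _ _ (by norm_num)
    calc (c * 4 ^ K + 1) ^ 2 + m ≤ (c * 4 ^ K + 4 ^ K) ^ 2 + m * (4 ^ K) ^ 2 := by
          gcongr
          nlinarith [Nat.one_le_pow 2 (4 ^ K) (by positivity)]
      _ = ((c + 1) ^ 2 + m) * (4 ^ K) ^ 2 := by ring
      _ ≤ 2 ^ e * (4 ^ K) ^ 2 := Nat.mul_le_mul_right _ he
  have h2 : ((c * 4 ^ K + 1) ^ 2 + m) ^ K ≤ 2 ^ ((e + 4 * K) * K) := by
    rw [pow_mul]
    exact Nat.pow_le_pow_left h1 K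
  have h3 : 2 * (((c * 4 ^ K + 1) ^ 2 + m) ^ K * 2 ^ K) + 1 ≤ 2 ^ ((e + 4 * K) * K + K + 2) := by
    have : ((c * 4 ^ K + 1) ^ 2 + m) ^ K * 2 ^ K ≤ 2 ^ ((e + 4 * K) * K + K) := by
      rw [pow_add]
      exact Nat.mul_le_mul_right _ h2
    have h5 : 1 ≤ 2 ^ ((e + 4 * K) * K + K) := Nat.one_le_pow _ _ (by norm_num)
    rw [pow_add 2 ((e + 4 * K) * K + K) 2]
    generalize ((c * 4 ^ K + 1) ^ 2 + m) ^ K * 2 ^ K = y at this ⊢
    generalize 2 ^ ((e + 4 * K) * K + K) = z at this h5 ⊢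
    omega
  calc (2 * (((c * 4 ^ K + 1) ^ 2 + m) ^ K * 2 ^ K) + 1) ^ 2
      ≤ (2 ^ ((e + 4 * K) * K + K + 2)) ^ 2 := Nat.pow_le_pow_left h3 2
    _ = 2 ^ (((e + 4 * K) * K + K + 2) * 2) := by rw [pow_mul]
    _ < 2 ^ 2 ^ K := by
      apply Nat.pow_lt_pow_right (by norm_num)
      have h6 : L ^ 4 < 2 ^ K := by
        rw [hK, mul_comm, pow_mul]
        exact Nat.pow_lt_pow_left Nat.lt_two_pow_self (by norm_num)
      refine lt_of_le_of_lt ?_ h6
      have h7 : 200 ≤ L := by omega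
      have h8 : e ≤ L := by omega
      calc ((e + 4 * K) * K + K + 2) * 2 ≤ ((L + 4 * (4 * L)) * (4 * L) + 4 * L + 2) * 2 := by
            rw [hK]
            gcongr
        _ = 136 * L ^ 2 + 8 * L + 4 := by ring
        _ ≤ 200 * L ^ 2 := by nlinarith
        _ ≤ L ^ 2 * L ^ 2 := by
          apply Nat.mul_le_mul_right
          nlinarith
        _ = L ^ 4 := by ring

/-- Two different subsets of a large cube have equal sums. -/
theorem exists_equal_sums {m : ℕ} (hm : 0 < m) (F : Finset ℂ) (h1 : (1 : ℂ) ∈ F)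
    (hinv : ∀ z ∈ F, z⁻¹ ∈ F) :
    ∃ S : Finset ℂ, (∀ a ∈ S, G m a) ∧ (∀ a ∈ S, ∀ b ∈ S, a ≠ b → a / b ∉ F) ∧
      ∃ T ⊆ S, ∃ T' ⊆ S, T ≠ T' ∧ ∑ a ∈ T, a = ∑ a ∈ T', a := by
  classical
  obtain ⟨K, hK⟩ := exists_K F.card m
  obtain ⟨S, hS, hG, hF, D, hD, hDle, hint⟩ := exists_cube hm F h1 hinv K K le_rfl
  refine ⟨S, hG, hF, ?_⟩
  have hsum : ∀ T ⊆ S, ∃ p : ℤ × ℤ, (D : ℂ) * ∑ a ∈ T, a = p.1 + p.2 * s m := by
    intro T hT
    have : IsInt m ((D : ℂ) * ∑ a ∈ T, a) := by
      rw [Finset.mul_sum]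
      exact IsInt.sum _ _ fun a ha => hint a (hT ha)
    obtain ⟨a, b, h⟩ := this
    exact ⟨(a, b), h⟩
  choose! f hf using hsum
  let M : ℤ := D * 2 ^ K
  have hmaps : ∀ T ∈ S.powerset, f T ∈ Finset.Icc (-M) M ×ˢ Finset.Icc (-M) M := by
    intro T hT
    rw [Finset.mem_powerset] at hT
    have h := hf T hT
    have hn : ‖(D : ℂ) * ∑ a ∈ T, a‖ ≤ (M : ℝ) := by
      rw [norm_mul, Complex.norm_natCast]
      have h2 : ‖∑ a ∈ T, a‖ ≤ 2 ^ K := by
        refine (norm_sum_le _ _).trans ?_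
        rw [Finset.sum_congr rfl fun a ha => (hG a (hT ha)).1, Finset.sum_const, nsmul_eq_mul,
          mul_one]
        have : T.card ≤ 2 ^ K := hS ▸ Finset.card_le_card hT
        exact_mod_cast this
      have : ((M : ℤ) : ℝ) = D * 2 ^ K := by simp [M]
      rw [this]
      exact mul_le_mul_of_nonneg_left h2 (by positivity)
    rw [h] at hn
    have hre : |((f T).1 : ℝ)| ≤ M := by
      refine le_trans ?_ hn
      have := Complex.abs_re_le_norm (((f T).1 : ℂ) + ((f T).2 : ℂ) * s m)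
      simpa [s_re] using this
    have him : |((f T).2 : ℝ)| ≤ M := by
      refine le_trans ?_ hn
      have := Complex.abs_im_le_norm (((f T).1 : ℂ) + ((f T).2 : ℂ) * s m)
      rw [Complex.add_im, Complex.intCast_im, zero_add, Complex.mul_im, Complex.intCast_re,
        Complex.intCast_im, zero_mul, add_zero, s_im, abs_mul] at this
      refine le_trans ?_ this
      have h1 : 1 ≤ |Real.sqrt m| := by
        rw [abs_of_nonneg (Real.sqrt_nonneg _), Real.one_le_sqrt]
        exact_mod_cast hm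
      nlinarith [abs_nonneg ((f T).2 : ℝ)]
    rw [abs_le] at hre him
    simp only [Finset.mem_product, Finset.mem_Icc]
    refine ⟨⟨?_, ?_⟩, ?_, ?_⟩
    · exact_mod_cast hre.1
    · exact_mod_cast hre.2
    · exact_mod_cast him.1
    · exact_mod_cast him.2
  have hcard : (Finset.Icc (-M) M ×ˢ Finset.Icc (-M) M).card < S.powerset.card := by
    rw [Finset.card_product, Int.card_Icc, Finset.card_powerset, hS]
    have hM : (M + 1 - -M).toNat = 2 * (D * 2 ^ K) + 1 := by
      have : (M + 1 - -M) = ((2 * (D * 2 ^ K) + 1 : ℕ) : ℤ) := by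
        simp only [M]
        push_cast
        ring
      rw [this, Int.toNat_natCast]
    rw [hM]
    refine lt_of_le_of_lt ?_ hK
    rw [sq]
    have : D * 2 ^ K ≤ ((F.card * 4 ^ K + 1) ^ 2 + m) ^ K * 2 ^ K := Nat.mul_le_mul_right _ hDle
    exact Nat.mul_le_mul (by omega) (by omega)
  obtain ⟨T, hT, T', hT', hne, heq⟩ :=
    Finset.exists_ne_map_eq_of_card_lt_of_maps_to hcard hmaps
  rw [Finset.mem_powerset] at hT hT'
  refine ⟨T, hT, T', hT', hne, ?_⟩
  have h1 := hf T hT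
  have h2 := hf T' hT'
  rw [heq, ← h2] at h1
  have hD0 : (D : ℂ) ≠ 0 := by exact_mod_cast hD.ne'
  exact mul_left_cancel₀ hD0 h1

/-- Outside of any finite set, one is a sum of distinct elements of absolute value one of the field,
no two of them opposite. -/
theorem rep_one {m : ℕ} (hm : 0 < m) (F₀ : Finset ℂ) :
    ∃ A : Finset ℂ, (∀ v ∈ A, G m v) ∧ (∀ v ∈ A, v ∉ F₀) ∧ (∀ v ∈ A, -v ∉ F₀) ∧
      (∀ v ∈ A, -v ∉ A) ∧ (1 : ℂ) ∉ A ∧ (-1 : ℂ) ∉ A ∧ ∑ v ∈ A, v = 1 := by
  classical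
  obtain ⟨F, h1, hF₀, hneg, hinv⟩ : ∃ F : Finset ℂ, (1 : ℂ) ∈ F ∧ F₀ ⊆ F ∧ (∀ z ∈ F, -z ∈ F) ∧
      (∀ z ∈ F, z⁻¹ ∈ F) := by
    let F0 := insert 1 F₀
    let F1 := F0 ∪ F0.image fun z => -z
    let F2 := F1 ∪ F1.image fun z => z⁻¹
    have h01 : F0 ⊆ F1 := Finset.subset_union_left
    have h12 : F1 ⊆ F2 := Finset.subset_union_left
    have hn1 : ∀ z ∈ F1, -z ∈ F1 := by
      intro z hz
      rcases Finset.mem_union.1 hz with h | h
      · exact Finset.mem_union_right _ (Finset.mem_image_of_mem _ h)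
      · obtain ⟨y, hy, rfl⟩ := Finset.mem_image.1 h
        rw [neg_neg]
        exact h01 hy
    refine ⟨F2, h12 (h01 (Finset.mem_insert_self _ _)),
      ((Finset.subset_insert _ _).trans h01).trans h12, ?_, ?_⟩
    · intro z hz
      rcases Finset.mem_union.1 hz with h | h
      · exact h12 (hn1 z h)
      · obtain ⟨y, hy, rfl⟩ := Finset.mem_image.1 h
        rw [← inv_neg]
        exact Finset.mem_union_right _ (Finset.mem_image_of_mem _ (hn1 y hy))
    · intro z hz
      rcases Finset.mem_union.1 hz with h | h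
      · exact Finset.mem_union_right _ (Finset.mem_image_of_mem _ h)
      · obtain ⟨y, hy, rfl⟩ := Finset.mem_image.1 h
        rw [inv_inv]
        exact h12 hy
  obtain ⟨S, hG, hF, T, hT, T', hT', hne, heq⟩ := exists_equal_sums hm F h1 hinv
  -- without loss of generality `T` is not contained in `T'`
  obtain ⟨T, hT, T', hT', g, hgT, hgT', heq⟩ : ∃ T ⊆ S, ∃ T' ⊆ S, ∃ g ∈ T, g ∉ T' ∧
      ∑ a ∈ T, a = ∑ a ∈ T', a := by
    by_cases h : T ⊆ T'
    · have h' : ¬ T' ⊆ T := fun h'' => hne (h.antisymm h'')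
      obtain ⟨g, hg, hg'⟩ := Finset.not_subset.1 h'
      exact ⟨T', hT', T, hT, g, hg, hg', heq.symm⟩
    · obtain ⟨g, hg, hg'⟩ := Finset.not_subset.1 h
      exact ⟨T, hT, T', hT', g, hg, hg', heq⟩
  have hgS : g ∈ S := hT hgT
  have hg0 : g ≠ 0 := (hG g hgS).ne_zero
  let P := T' \ T
  let Q := (T \ T').erase g
  let A := P.image (fun h => h / g) ∪ Q.image (fun h => -(h / g))
  have hPS : ∀ h ∈ P, h ∈ S ∧ h ≠ g := by
    intro h hh
    rw [Finset.mem_sdiff] at hh
    refine ⟨hT' hh.1, ?_⟩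
    rintro rfl
    exact hgT' hh.1
  have hQS : ∀ h ∈ Q, h ∈ S ∧ h ≠ g := by
    intro h hh
    rw [Finset.mem_erase, Finset.mem_sdiff] at hh
    exact ⟨hT hh.2.1, hh.1⟩
  have hPQ : ∀ h ∈ P, h ∉ Q := by
    intro h hh hh'
    rw [Finset.mem_sdiff] at hh
    rw [Finset.mem_erase, Finset.mem_sdiff] at hh'
    exact hh.2 hh'.2.1
  have hopp : ∀ a ∈ S, ∀ b ∈ S, a ≠ -b := by
    intro a ha b hb hab
    have hb0 := (hG b hb).ne_zero
    have hne' : a ≠ b := by
      intro h
      rw [h] at hab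
      exact hb0 (self_eq_neg.1 hab)
    have : a / b = -1 := by
      rw [hab]
      field_simp
    exact hF a ha b hb hne' (this ▸ hneg 1 h1)
  have hAform : ∀ v ∈ A, ∃ h ∈ S, h ≠ g ∧ (v = h / g ∨ v = -(h / g)) := by
    intro v hv
    rcases Finset.mem_union.1 hv with h | h
    · obtain ⟨y, hy, rfl⟩ := Finset.mem_image.1 h
      exact ⟨y, (hPS y hy).1, (hPS y hy).2, Or.inl rfl⟩
    · obtain ⟨y, hy, rfl⟩ := Finset.mem_image.1 h
      exact ⟨y, (hQS y hy).1, (hQS y hy).2, Or.inr rfl⟩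
  have hAF : ∀ v ∈ A, v ∉ F := by
    intro v hv hvF
    obtain ⟨h, hS', hne', h' | h'⟩ := hAform v hv
    · exact hF h hS' g hgS hne' (h' ▸ hvF)
    · have := hneg v hvF
      rw [h', neg_neg] at this
      exact hF h hS' g hgS hne' this
  refine ⟨A, ?_, fun v hv hv' => hAF v hv (hF₀ hv'), ?_, ?_, fun h => hAF 1 h h1,
    fun h => hAF (-1) h (hneg 1 h1), ?_⟩
  · intro v hv
    obtain ⟨h, hS', -, h' | h'⟩ := hAform v hv
    · rw [h']
      exact (hG h hS').div (hG g hgS)
    · rw [h']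
      exact ((hG h hS').div (hG g hgS)).neg
  · intro v hv hv'
    have := hneg _ (hF₀ hv')
    rw [neg_neg] at this
    exact hAF v hv this
  · intro v hv hv'
    rcases Finset.mem_union.1 hv with h | h <;> rcases Finset.mem_union.1 hv' with h' | h'
    · obtain ⟨a, ha, rfl⟩ := Finset.mem_image.1 h
      obtain ⟨b, hb, hab⟩ := Finset.mem_image.1 h'
      have : b = -a := by
        field_simp at hab
        exact hab
      exact hopp b (hPS b hb).1 a (hPS a ha).1 this
    · obtain ⟨a, ha, rfl⟩ := Finset.mem_image.1 h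
      obtain ⟨b, hb, hab⟩ := Finset.mem_image.1 h'
      have : b = a := by
        field_simp at hab
        simpa using hab
      exact hPQ a ha (this ▸ hb)
    · obtain ⟨a, ha, rfl⟩ := Finset.mem_image.1 h
      obtain ⟨b, hb, hab⟩ := Finset.mem_image.1 h'
      have : b = a := by
        field_simp at hab
        simpa using hab
      exact hPQ b hb (this ▸ ha)
    · obtain ⟨a, ha, rfl⟩ := Finset.mem_image.1 h
      obtain ⟨b, hb, hab⟩ := Finset.mem_image.1 h'
      have : b = -a := by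
        field_simp at hab
        linear_combination -hab
      exact hopp b (hQS b hb).1 a (hQS a ha).1 this
  · have hdisj : Disjoint (P.image fun h => h / g) (Q.image fun h => -(h / g)) := by
      rw [Finset.disjoint_left]
      intro v h h'
      obtain ⟨a, ha, rfl⟩ := Finset.mem_image.1 h
      obtain ⟨b, hb, hab⟩ := Finset.mem_image.1 h'
      have : b = -a := by
        field_simp at hab
        linear_combination -hab
      exact hopp b (hQS b hb).1 a (hPS a ha).1 this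
    have hinj1 : ∀ x ∈ P, ∀ y ∈ P, x / g = y / g → x = y := by
      intro x _ y _ h
      field_simp at h
      exact h
    have hinj2 : ∀ x ∈ Q, ∀ y ∈ Q, -(x / g) = -(y / g) → x = y := by
      intro x _ y _ h
      have h := neg_injective h
      field_simp at h
      exact h
    rw [Finset.sum_union hdisj, Finset.sum_image hinj1, Finset.sum_image hinj2]
    rw [Finset.sum_neg_distrib, ← Finset.sum_div, ← Finset.sum_div]
    have e1 : ∑ a ∈ T, a = ∑ a ∈ T \ T', a + ∑ a ∈ T ∩ T', a := by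
      rw [← Finset.sum_union (Finset.disjoint_sdiff_inter T T'), Finset.sdiff_union_inter]
    have e2 : ∑ a ∈ T', a = ∑ a ∈ T' \ T, a + ∑ a ∈ T' ∩ T, a := by
      rw [← Finset.sum_union (Finset.disjoint_sdiff_inter T' T), Finset.sdiff_union_inter]
    have e3 : ∑ a ∈ T \ T', a = g + ∑ a ∈ Q, a := by
      rw [add_comm, Finset.sum_erase_add]
      exact Finset.mem_sdiff.2 ⟨hgT, hgT'⟩
    rw [Finset.inter_comm] at e2
    have e4 : ∑ a ∈ P, a - ∑ a ∈ Q, a = g := by
      change ∑ a ∈ T' \ T, a - ∑ a ∈ Q, a = g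
      linear_combination e1 - e2 + e3 - heq
    rw [← sub_eq_add_neg, ← sub_div, e4, div_self hg0]

end Q143.EQ
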